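import Pool.Agent.W448.FF.Kernel

/-!
EST: the values of the statistics (subtask FF-EST).
-/

set_option autoImplicit false

namespace Pool.Agent.W32.FF

open Finset Pool.Agent.W448.FF

variable {V : Type} [Fintype V]

theorem E5_add (w : V → ℝ) (f g : V → V → V → V → V → ℝ) :
    E5 w (fun a b c d e => f a b c d e + g a b c d e) = E5 w f + E5 w g := by
  unfold E5
  simp only [mul_add, Finset.sum_add_distrib]

theorem E5_tail (w : V → ℝ) (f : V → V → V → V → V → ℝ) :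
    E5 w f = ∑ a, ∑ b, ∑ c, w a * w b * w c * (∑ d, ∑ e, w d * w e * f a b c d e) := by
  unfold E5
  refine sum_congr rfl fun a _ => sum_congr rfl fun b _ => sum_congr rfl fun c _ => ?_
  rw [Finset.mul_sum]
  refine sum_congr rfl fun d _ => ?_
  rw [Finset.mul_sum]
  refine sum_congr rfl fun e _ => by ring

theorem tail_const (w : V → ℝ) (hw : ∑ v, w v = 1) (k : ℝ) : ∑ d, ∑ e, w d * w e * k = k := by
  have h1 : ∀ d, ∑ e, w d * w e * k = w d * k := by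
    intro d
    rw [← Finset.sum_mul, ← Finset.mul_sum, hw, mul_one]
  simp only [h1]
  rw [← Finset.sum_mul, hw, one_mul]

theorem E5_three (w : V → ℝ) (hw : ∑ v, w v = 1) (f : V → V → V → ℝ) :
    E5 w (fun a b c _ _ => f a b c) = ∑ a, ∑ b, ∑ c, w a * w b * w c * f a b c := by
  rw [E5_tail]
  refine sum_congr rfl fun a _ => sum_congr rfl fun b _ => sum_congr rfl fun c _ => ?_
  rw [tail_const w hw]

theorem E5_two (w : V → ℝ) (hw : ∑ v, w v = 1) (f : V → V → ℝ) :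
    E5 w (fun a b _ _ _ => f a b) = ∑ a, ∑ b, w a * w b * f a b := by
  rw [E5_three w hw (fun a b _ => f a b)]
  refine sum_congr rfl fun a _ => sum_congr rfl fun b _ => ?_
  have h1 : ∀ c, w a * w b * w c * f a b = w c * (w a * w b * f a b) := fun c => by ring
  simp only [h1]
  rw [← Finset.sum_mul, hw, one_mul]

omit [Fintype V] in
theorem ac_zero (G : OG V) (u v : V) : ac G u v = 0 ↔ ¬ G.adj u v := by
  unfold ac OG.adj
  by_cases h1 : G.arc u v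
  · simp [h1]
  · by_cases h2 : G.arc v u
    · simp [h1, h2]
    · simp [h1, h2]

omit [Fintype V] in
theorem ac_one (G : OG V) (u v : V) : ac G u v = 1 ↔ G.arc u v := by
  unfold ac
  by_cases h1 : G.arc u v
  · simp [h1]
  · by_cases h2 : G.arc v u
    · simp [h1, h2]
    · simp [h1, h2]

omit [Fintype V] in
theorem beq_zero (G : OG V) (u v : V) [Decidable (G.adj u v)] :
    Nat.beq (ac G u v) 0 = !decide (G.adj u v) := by
  by_cases h : G.adj u v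
  · have h1 : ac G u v ≠ 0 := fun h0 => (ac_zero G u v).1 h0 h
    rw [decide_eq_true h, Bool.not_true, ← Bool.not_eq_true, Nat.beq_eq]
    exact h1
  · have h1 : ac G u v = 0 := (ac_zero G u v).2 h
    rw [decide_eq_false h, h1]
    rfl

omit [Fintype V] in
theorem z1_eq (G : OG V) (u v : V) : ((z1 (ac G u v) : ℕ) : ℝ) = nn G u v := by
  classical
  unfold z1 nn
  rw [beq_zero]
  by_cases h : G.adj u v <;> simp [h]

omit [Fintype V] in
theorem beq_one (G : OG V) (u v : V) [Decidable (G.arc u v)] :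
    Nat.beq (ac G u v) 1 = decide (G.arc u v) := by
  by_cases h : G.arc u v
  · have h1 : ac G u v = 1 := (ac_one G u v).2 h
    rw [decide_eq_true h, h1]
    rfl
  · have h1 : ac G u v ≠ 1 := fun h0 => h ((ac_one G u v).1 h0)
    rw [decide_eq_false h, ← Bool.not_eq_true, Nat.beq_eq]
    exact h1

omit [Fintype V] in
theorem o2_eq (G : OG V) (u v z : V) :
    ((o2 (ac G u v) (ac G u z) : ℕ) : ℝ) = o G u v * o G u z := by
  classical
  unfold o2 o
  rw [beq_one, beq_one]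
  by_cases h : G.arc u v <;> by_cases h' : G.arc u z <;> simp [h, h']

theorem base1 (G : OG V) (w : V → ℝ) (hw : ∑ v, w v = 1) :
    E5 w (fun a b _ _ _ => ((z1 (ac G a b) : ℕ) : ℝ)) = ∑ v, w v * Hh G w v := by
  rw [E5_two w hw (fun a b => ((z1 (ac G a b) : ℕ) : ℝ))]
  refine sum_congr rfl fun a _ => ?_
  unfold Hh
  rw [Finset.mul_sum]
  refine sum_congr rfl fun b _ => ?_
  rw [z1_eq]
  ring

theorem base2 (G : OG V) (w : V → ℝ) (hw : ∑ v, w v = 1) :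
    E5 w (fun a b c _ _ => ((o2 (ac G a b) (ac G a c) : ℕ) : ℝ)) = ∑ v, w v * X G w v ^ 2 := by
  rw [E5_three w hw (fun a b c => ((o2 (ac G a b) (ac G a c) : ℕ) : ℝ))]
  refine sum_congr rfl fun a _ => ?_
  unfold X
  rw [sq, Finset.sum_mul_sum, Finset.mul_sum]
  refine sum_congr rfl fun b _ => ?_
  rw [Finset.mul_sum]
  refine sum_congr rfl fun c _ => ?_
  rw [o2_eq]
  ring

theorem Dl_eq (G : OG V) (w : V → ℝ) (p : V → Fin 3) :
    Dl G w p = ∑ d, ∑ e, w d * w e * (if p e = p d then 1 - nn G d e else nn G d e) := by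
  unfold Dl D ein mcr
  refine sum_congr rfl fun d _ => ?_
  rw [← Finset.sum_add_distrib, Finset.mul_sum]
  refine sum_congr rfl fun e _ => ?_
  split_ifs <;> ring

/-- the defect term -/
noncomputable def T3 (G : OG V) (dl U : ℕ) (a b c d e : V) : ℝ :=
  ((df dl U (ac G a b) (ac G a c) (ac G b c) (ac G a d) (ac G b d) (ac G c d) (ac G a e)
    (ac G b e) (ac G c e) (ac G d e) : ℕ) : ℝ)

omit [Fintype V] in
theorem T3_eq (G : OG V) (dl U : ℕ) (a b c d e : V) :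
    T3 G dl U a b c d e = dl + (1 - nn G a b) * (1 - nn G a c) * (1 - nn G b c) *
      (U * (if pu G a b c e = pu G a b c d then 1 - nn G d e else nn G d e) - dl) := by
  classical
  have hpu : pu G a b c e = pu G a b c d ↔
      Nat.beq (pt (ac G a d) (ac G b d) (ac G c d)) (pt (ac G a e) (ac G b e) (ac G c e)) =
        true := by
    rw [Nat.beq_eq]
    unfold pu
    rw [Fin.mk.injEq]
    exact eq_comm
  unfold T3 df
  rw [beq_zero G a b, beq_zero G a c, beq_zero G b c, beq_zero G d e]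
  unfold nn
  by_cases h1 : G.adj a b
  · by_cases h2 : G.adj a c
    · by_cases h3 : G.adj b c
      · by_cases h4 : pu G a b c e = pu G a b c d
        · rw [if_pos h4, hpu.1 h4]
          by_cases h5 : G.adj d e <;> simp [h1, h2, h3, h5]
        · have h4' : Nat.beq (pt (ac G a d) (ac G b d) (ac G c d))
            (pt (ac G a e) (ac G b e) (ac G c e)) = false := by
            rw [← Bool.not_eq_true]
            exact fun h => h4 (hpu.2 h)
          rw [if_neg h4, h4']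
          by_cases h5 : G.adj d e <;> simp [h1, h2, h3, h5]
      · simp [h1, h2, h3]
    · simp [h1, h2]
  · simp [h1]

theorem base3 (G : OG V) (w : V → ℝ) (hw : ∑ v, w v = 1) (dl U : ℕ) :
    E5 w (T3 G dl U) = dl + ∑ a, ∑ b, ∑ c, w a * w b * w c *
      ((1 - nn G a b) * (1 - nn G a c) * (1 - nn G b c) * (U * Dl G w (pu G a b c) - dl)) := by
  have h1 : ∀ a b c, ∑ d, ∑ e, w d * w e * T3 G dl U a b c d e =
      dl + (1 - nn G a b) * (1 - nn G a c) * (1 - nn G b c) * (U * Dl G w (pu G a b c) - dl) := by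
    intro a b c
    set τ : ℝ := (1 - nn G a b) * (1 - nn G a c) * (1 - nn G b c) with hτ
    have h2 : ∀ d e, w d * w e * T3 G dl U a b c d e =
        w d * w e * (dl - τ * dl) + (τ * U) * (w d * w e *
          (if pu G a b c e = pu G a b c d then 1 - nn G d e else nn G d e)) := by
      intro d e
      rw [T3_eq, ← hτ]
      ring
    simp only [h2, Finset.sum_add_distrib]
    rw [tail_const w hw]
    simp only [← Finset.mul_sum]
    rw [← Dl_eq]
    ring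
  rw [E5_tail]
  simp only [h1, mul_add, Finset.sum_add_distrib]
  congr 1
  have h3 : ∀ a, ∑ b, ∑ c, w a * w b * w c * (dl : ℝ) = w a * dl := by
    intro a
    rw [← tail_const w hw (w a * (dl : ℝ))]
    refine sum_congr rfl fun b _ => sum_congr rfl fun c _ => ?_
    ring
  simp only [h3]
  rw [← Finset.sum_mul, hw, one_mul]

theorem bj01234 : Function.Bijective (![0, 1, 2, 3, 4] : Fin 5 → Fin 5) := by decide
theorem bj01324 : Function.Bijective (![0, 1, 3, 2, 4] : Fin 5 → Fin 5) := by decide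
theorem bj01423 : Function.Bijective (![0, 1, 4, 2, 3] : Fin 5 → Fin 5) := by decide
theorem bj02134 : Function.Bijective (![0, 2, 1, 3, 4] : Fin 5 → Fin 5) := by decide
theorem bj02314 : Function.Bijective (![0, 2, 3, 1, 4] : Fin 5 → Fin 5) := by decide
theorem bj02413 : Function.Bijective (![0, 2, 4, 1, 3] : Fin 5 → Fin 5) := by decide
theorem bj03124 : Function.Bijective (![0, 3, 1, 2, 4] : Fin 5 → Fin 5) := by decide
theorem bj03214 : Function.Bijective (![0, 3, 2, 1, 4] : Fin 5 → Fin 5) := by decide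
theorem bj03412 : Function.Bijective (![0, 3, 4, 1, 2] : Fin 5 → Fin 5) := by decide
theorem bj04123 : Function.Bijective (![0, 4, 1, 2, 3] : Fin 5 → Fin 5) := by decide
theorem bj04213 : Function.Bijective (![0, 4, 2, 1, 3] : Fin 5 → Fin 5) := by decide
theorem bj04312 : Function.Bijective (![0, 4, 3, 1, 2] : Fin 5 → Fin 5) := by decide
theorem bj10234 : Function.Bijective (![1, 0, 2, 3, 4] : Fin 5 → Fin 5) := by decide
theorem bj10324 : Function.Bijective (![1, 0, 3, 2, 4] : Fin 5 → Fin 5) := by decide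
theorem bj10423 : Function.Bijective (![1, 0, 4, 2, 3] : Fin 5 → Fin 5) := by decide
theorem bj12034 : Function.Bijective (![1, 2, 0, 3, 4] : Fin 5 → Fin 5) := by decide
theorem bj12304 : Function.Bijective (![1, 2, 3, 0, 4] : Fin 5 → Fin 5) := by decide
theorem bj12403 : Function.Bijective (![1, 2, 4, 0, 3] : Fin 5 → Fin 5) := by decide
theorem bj13024 : Function.Bijective (![1, 3, 0, 2, 4] : Fin 5 → Fin 5) := by decide
theorem bj13204 : Function.Bijective (![1, 3, 2, 0, 4] : Fin 5 → Fin 5) := by decide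
theorem bj13402 : Function.Bijective (![1, 3, 4, 0, 2] : Fin 5 → Fin 5) := by decide
theorem bj14023 : Function.Bijective (![1, 4, 0, 2, 3] : Fin 5 → Fin 5) := by decide
theorem bj14203 : Function.Bijective (![1, 4, 2, 0, 3] : Fin 5 → Fin 5) := by decide
theorem bj14302 : Function.Bijective (![1, 4, 3, 0, 2] : Fin 5 → Fin 5) := by decide
theorem bj20134 : Function.Bijective (![2, 0, 1, 3, 4] : Fin 5 → Fin 5) := by decide
theorem bj20314 : Function.Bijective (![2, 0, 3, 1, 4] : Fin 5 → Fin 5) := by decide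
theorem bj20413 : Function.Bijective (![2, 0, 4, 1, 3] : Fin 5 → Fin 5) := by decide
theorem bj21034 : Function.Bijective (![2, 1, 0, 3, 4] : Fin 5 → Fin 5) := by decide
theorem bj21304 : Function.Bijective (![2, 1, 3, 0, 4] : Fin 5 → Fin 5) := by decide
theorem bj21403 : Function.Bijective (![2, 1, 4, 0, 3] : Fin 5 → Fin 5) := by decide
theorem bj23014 : Function.Bijective (![2, 3, 0, 1, 4] : Fin 5 → Fin 5) := by decide
theorem bj23104 : Function.Bijective (![2, 3, 1, 0, 4] : Fin 5 → Fin 5) := by decide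
theorem bj23401 : Function.Bijective (![2, 3, 4, 0, 1] : Fin 5 → Fin 5) := by decide
theorem bj24013 : Function.Bijective (![2, 4, 0, 1, 3] : Fin 5 → Fin 5) := by decide
theorem bj24103 : Function.Bijective (![2, 4, 1, 0, 3] : Fin 5 → Fin 5) := by decide
theorem bj24301 : Function.Bijective (![2, 4, 3, 0, 1] : Fin 5 → Fin 5) := by decide
theorem bj30124 : Function.Bijective (![3, 0, 1, 2, 4] : Fin 5 → Fin 5) := by decide
theorem bj30214 : Function.Bijective (![3, 0, 2, 1, 4] : Fin 5 → Fin 5) := by decide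
theorem bj30412 : Function.Bijective (![3, 0, 4, 1, 2] : Fin 5 → Fin 5) := by decide
theorem bj31024 : Function.Bijective (![3, 1, 0, 2, 4] : Fin 5 → Fin 5) := by decide
theorem bj31204 : Function.Bijective (![3, 1, 2, 0, 4] : Fin 5 → Fin 5) := by decide
theorem bj31402 : Function.Bijective (![3, 1, 4, 0, 2] : Fin 5 → Fin 5) := by decide
theorem bj32014 : Function.Bijective (![3, 2, 0, 1, 4] : Fin 5 → Fin 5) := by decide
theorem bj32104 : Function.Bijective (![3, 2, 1, 0, 4] : Fin 5 → Fin 5) := by decide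
theorem bj32401 : Function.Bijective (![3, 2, 4, 0, 1] : Fin 5 → Fin 5) := by decide
theorem bj34012 : Function.Bijective (![3, 4, 0, 1, 2] : Fin 5 → Fin 5) := by decide
theorem bj34102 : Function.Bijective (![3, 4, 1, 0, 2] : Fin 5 → Fin 5) := by decide
theorem bj34201 : Function.Bijective (![3, 4, 2, 0, 1] : Fin 5 → Fin 5) := by decide
theorem bj40123 : Function.Bijective (![4, 0, 1, 2, 3] : Fin 5 → Fin 5) := by decide
theorem bj40213 : Function.Bijective (![4, 0, 2, 1, 3] : Fin 5 → Fin 5) := by decide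
theorem bj40312 : Function.Bijective (![4, 0, 3, 1, 2] : Fin 5 → Fin 5) := by decide
theorem bj41023 : Function.Bijective (![4, 1, 0, 2, 3] : Fin 5 → Fin 5) := by decide
theorem bj41203 : Function.Bijective (![4, 1, 2, 0, 3] : Fin 5 → Fin 5) := by decide
theorem bj41302 : Function.Bijective (![4, 1, 3, 0, 2] : Fin 5 → Fin 5) := by decide
theorem bj42013 : Function.Bijective (![4, 2, 0, 1, 3] : Fin 5 → Fin 5) := by decide
theorem bj42103 : Function.Bijective (![4, 2, 1, 0, 3] : Fin 5 → Fin 5) := by decide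
theorem bj42301 : Function.Bijective (![4, 2, 3, 0, 1] : Fin 5 → Fin 5) := by decide
theorem bj43012 : Function.Bijective (![4, 3, 0, 1, 2] : Fin 5 → Fin 5) := by decide
theorem bj43102 : Function.Bijective (![4, 3, 1, 0, 2] : Fin 5 → Fin 5) := by decide
theorem bj43201 : Function.Bijective (![4, 3, 2, 0, 1] : Fin 5 → Fin 5) := by decide

theorem est1 (h : S_PRM) (G : OG V) (w : V → ℝ) (hw : ∑ v, w v = 1) :
    E5 w (fun a b c d e => ((onV sz G a b c d e : ℕ) : ℝ)) = 10 * ∑ v, w v * Hh G w v := by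
  rw [← base1 G w hw]
  have q0 : E5 w (fun a b c d e => ((z1 (ac G a b) : ℕ) : ℝ)) =
      E5 w (fun a b _ _ _ => ((z1 (ac G a b) : ℕ) : ℝ)) :=
    h V w (fun a b _ _ _ => ((z1 (ac G a b) : ℕ) : ℝ)) ![0, 1, 2, 3, 4] bj01234
  have q1 : E5 w (fun a b c d e => ((z1 (ac G a c) : ℕ) : ℝ)) =
      E5 w (fun a b _ _ _ => ((z1 (ac G a b) : ℕ) : ℝ)) :=
    h V w (fun a b _ _ _ => ((z1 (ac G a b) : ℕ) : ℝ)) ![0, 2, 1, 3, 4] bj02134
  have q2 : E5 w (fun a b c d e => ((z1 (ac G b c) : ℕ) : ℝ)) =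
      E5 w (fun a b _ _ _ => ((z1 (ac G a b) : ℕ) : ℝ)) :=
    h V w (fun a b _ _ _ => ((z1 (ac G a b) : ℕ) : ℝ)) ![1, 2, 0, 3, 4] bj12034
  have q3 : E5 w (fun a b c d e => ((z1 (ac G a d) : ℕ) : ℝ)) =
      E5 w (fun a b _ _ _ => ((z1 (ac G a b) : ℕ) : ℝ)) :=
    h V w (fun a b _ _ _ => ((z1 (ac G a b) : ℕ) : ℝ)) ![0, 3, 1, 2, 4] bj03124
  have q4 : E5 w (fun a b c d e => ((z1 (ac G b d) : ℕ) : ℝ)) =
      E5 w (fun a b _ _ _ => ((z1 (ac G a b) : ℕ) : ℝ)) :=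
    h V w (fun a b _ _ _ => ((z1 (ac G a b) : ℕ) : ℝ)) ![1, 3, 0, 2, 4] bj13024
  have q5 : E5 w (fun a b c d e => ((z1 (ac G c d) : ℕ) : ℝ)) =
      E5 w (fun a b _ _ _ => ((z1 (ac G a b) : ℕ) : ℝ)) :=
    h V w (fun a b _ _ _ => ((z1 (ac G a b) : ℕ) : ℝ)) ![2, 3, 0, 1, 4] bj23014
  have q6 : E5 w (fun a b c d e => ((z1 (ac G a e) : ℕ) : ℝ)) =
      E5 w (fun a b _ _ _ => ((z1 (ac G a b) : ℕ) : ℝ)) :=
    h V w (fun a b _ _ _ => ((z1 (ac G a b) : ℕ) : ℝ)) ![0, 4, 1, 2, 3] bj04123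
  have q7 : E5 w (fun a b c d e => ((z1 (ac G b e) : ℕ) : ℝ)) =
      E5 w (fun a b _ _ _ => ((z1 (ac G a b) : ℕ) : ℝ)) :=
    h V w (fun a b _ _ _ => ((z1 (ac G a b) : ℕ) : ℝ)) ![1, 4, 0, 2, 3] bj14023
  have q8 : E5 w (fun a b c d e => ((z1 (ac G c e) : ℕ) : ℝ)) =
      E5 w (fun a b _ _ _ => ((z1 (ac G a b) : ℕ) : ℝ)) :=
    h V w (fun a b _ _ _ => ((z1 (ac G a b) : ℕ) : ℝ)) ![2, 4, 0, 1, 3] bj24013
  have q9 : E5 w (fun a b c d e => ((z1 (ac G d e) : ℕ) : ℝ)) =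
      E5 w (fun a b _ _ _ => ((z1 (ac G a b) : ℕ) : ℝ)) :=
    h V w (fun a b _ _ _ => ((z1 (ac G a b) : ℕ) : ℝ)) ![3, 4, 0, 1, 2] bj34012
  simp only [onV, sz, Nat.add_eq, Nat.cast_add, E5_add]
  simp only [q0, q1, q2, q3, q4, q5, q6, q7, q8, q9]
  ring

theorem est2 (h : S_PRM) (G : OG V) (w : V → ℝ) (hw : ∑ v, w v = 1) :
    E5 w (fun a b c d e => ((onV sc G a b c d e : ℕ) : ℝ)) = 30 * ∑ v, w v * X G w v ^ 2 := by
  rw [← base2 G w hw]
  have q0 : E5 w (fun a b c d e => ((o2 (ac G a b) (ac G a c) : ℕ) : ℝ)) =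
      E5 w (fun a b c _ _ => ((o2 (ac G a b) (ac G a c) : ℕ) : ℝ)) :=
    h V w (fun a b c _ _ => ((o2 (ac G a b) (ac G a c) : ℕ) : ℝ)) ![0, 1, 2, 3, 4] bj01234
  have q1 : E5 w (fun a b c d e => ((o2 (ac G a b) (ac G a d) : ℕ) : ℝ)) =
      E5 w (fun a b c _ _ => ((o2 (ac G a b) (ac G a c) : ℕ) : ℝ)) :=
    h V w (fun a b c _ _ => ((o2 (ac G a b) (ac G a c) : ℕ) : ℝ)) ![0, 1, 3, 2, 4] bj01324
  have q2 : E5 w (fun a b c d e => ((o2 (ac G a b) (ac G a e) : ℕ) : ℝ)) =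
      E5 w (fun a b c _ _ => ((o2 (ac G a b) (ac G a c) : ℕ) : ℝ)) :=
    h V w (fun a b c _ _ => ((o2 (ac G a b) (ac G a c) : ℕ) : ℝ)) ![0, 1, 4, 2, 3] bj01423
  have q3 : E5 w (fun a b c d e => ((o2 (ac G a c) (ac G a d) : ℕ) : ℝ)) =
      E5 w (fun a b c _ _ => ((o2 (ac G a b) (ac G a c) : ℕ) : ℝ)) :=
    h V w (fun a b c _ _ => ((o2 (ac G a b) (ac G a c) : ℕ) : ℝ)) ![0, 2, 3, 1, 4] bj02314
  have q4 : E5 w (fun a b c d e => ((o2 (ac G a c) (ac G a e) : ℕ) : ℝ)) =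
      E5 w (fun a b c _ _ => ((o2 (ac G a b) (ac G a c) : ℕ) : ℝ)) :=
    h V w (fun a b c _ _ => ((o2 (ac G a b) (ac G a c) : ℕ) : ℝ)) ![0, 2, 4, 1, 3] bj02413
  have q5 : E5 w (fun a b c d e => ((o2 (ac G a d) (ac G a e) : ℕ) : ℝ)) =
      E5 w (fun a b c _ _ => ((o2 (ac G a b) (ac G a c) : ℕ) : ℝ)) :=
    h V w (fun a b c _ _ => ((o2 (ac G a b) (ac G a c) : ℕ) : ℝ)) ![0, 3, 4, 1, 2] bj03412
  have q6 : E5 w (fun a b c d e => ((o2 (ac G b a) (ac G b c) : ℕ) : ℝ)) =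
      E5 w (fun a b c _ _ => ((o2 (ac G a b) (ac G a c) : ℕ) : ℝ)) :=
    h V w (fun a b c _ _ => ((o2 (ac G a b) (ac G a c) : ℕ) : ℝ)) ![1, 0, 2, 3, 4] bj10234
  have q7 : E5 w (fun a b c d e => ((o2 (ac G b a) (ac G b d) : ℕ) : ℝ)) =
      E5 w (fun a b c _ _ => ((o2 (ac G a b) (ac G a c) : ℕ) : ℝ)) :=
    h V w (fun a b c _ _ => ((o2 (ac G a b) (ac G a c) : ℕ) : ℝ)) ![1, 0, 3, 2, 4] bj10324
  have q8 : E5 w (fun a b c d e => ((o2 (ac G b a) (ac G b e) : ℕ) : ℝ)) =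
      E5 w (fun a b c _ _ => ((o2 (ac G a b) (ac G a c) : ℕ) : ℝ)) :=
    h V w (fun a b c _ _ => ((o2 (ac G a b) (ac G a c) : ℕ) : ℝ)) ![1, 0, 4, 2, 3] bj10423
  have q9 : E5 w (fun a b c d e => ((o2 (ac G b c) (ac G b d) : ℕ) : ℝ)) =
      E5 w (fun a b c _ _ => ((o2 (ac G a b) (ac G a c) : ℕ) : ℝ)) :=
    h V w (fun a b c _ _ => ((o2 (ac G a b) (ac G a c) : ℕ) : ℝ)) ![1, 2, 3, 0, 4] bj12304
  have q10 : E5 w (fun a b c d e => ((o2 (ac G b c) (ac G b e) : ℕ) : ℝ)) =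
      E5 w (fun a b c _ _ => ((o2 (ac G a b) (ac G a c) : ℕ) : ℝ)) :=
    h V w (fun a b c _ _ => ((o2 (ac G a b) (ac G a c) : ℕ) : ℝ)) ![1, 2, 4, 0, 3] bj12403
  have q11 : E5 w (fun a b c d e => ((o2 (ac G b d) (ac G b e) : ℕ) : ℝ)) =
      E5 w (fun a b c _ _ => ((o2 (ac G a b) (ac G a c) : ℕ) : ℝ)) :=
    h V w (fun a b c _ _ => ((o2 (ac G a b) (ac G a c) : ℕ) : ℝ)) ![1, 3, 4, 0, 2] bj13402
  have q12 : E5 w (fun a b c d e => ((o2 (ac G c a) (ac G c b) : ℕ) : ℝ)) =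
      E5 w (fun a b c _ _ => ((o2 (ac G a b) (ac G a c) : ℕ) : ℝ)) :=
    h V w (fun a b c _ _ => ((o2 (ac G a b) (ac G a c) : ℕ) : ℝ)) ![2, 0, 1, 3, 4] bj20134
  have q13 : E5 w (fun a b c d e => ((o2 (ac G c a) (ac G c d) : ℕ) : ℝ)) =
      E5 w (fun a b c _ _ => ((o2 (ac G a b) (ac G a c) : ℕ) : ℝ)) :=
    h V w (fun a b c _ _ => ((o2 (ac G a b) (ac G a c) : ℕ) : ℝ)) ![2, 0, 3, 1, 4] bj20314
  have q14 : E5 w (fun a b c d e => ((o2 (ac G c a) (ac G c e) : ℕ) : ℝ)) =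
      E5 w (fun a b c _ _ => ((o2 (ac G a b) (ac G a c) : ℕ) : ℝ)) :=
    h V w (fun a b c _ _ => ((o2 (ac G a b) (ac G a c) : ℕ) : ℝ)) ![2, 0, 4, 1, 3] bj20413
  have q15 : E5 w (fun a b c d e => ((o2 (ac G c b) (ac G c d) : ℕ) : ℝ)) =
      E5 w (fun a b c _ _ => ((o2 (ac G a b) (ac G a c) : ℕ) : ℝ)) :=
    h V w (fun a b c _ _ => ((o2 (ac G a b) (ac G a c) : ℕ) : ℝ)) ![2, 1, 3, 0, 4] bj21304
  have q16 : E5 w (fun a b c d e => ((o2 (ac G c b) (ac G c e) : ℕ) : ℝ)) =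
      E5 w (fun a b c _ _ => ((o2 (ac G a b) (ac G a c) : ℕ) : ℝ)) :=
    h V w (fun a b c _ _ => ((o2 (ac G a b) (ac G a c) : ℕ) : ℝ)) ![2, 1, 4, 0, 3] bj21403
  have q17 : E5 w (fun a b c d e => ((o2 (ac G c d) (ac G c e) : ℕ) : ℝ)) =
      E5 w (fun a b c _ _ => ((o2 (ac G a b) (ac G a c) : ℕ) : ℝ)) :=
    h V w (fun a b c _ _ => ((o2 (ac G a b) (ac G a c) : ℕ) : ℝ)) ![2, 3, 4, 0, 1] bj23401
  have q18 : E5 w (fun a b c d e => ((o2 (ac G d a) (ac G d b) : ℕ) : ℝ)) =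
      E5 w (fun a b c _ _ => ((o2 (ac G a b) (ac G a c) : ℕ) : ℝ)) :=
    h V w (fun a b c _ _ => ((o2 (ac G a b) (ac G a c) : ℕ) : ℝ)) ![3, 0, 1, 2, 4] bj30124
  have q19 : E5 w (fun a b c d e => ((o2 (ac G d a) (ac G d c) : ℕ) : ℝ)) =
      E5 w (fun a b c _ _ => ((o2 (ac G a b) (ac G a c) : ℕ) : ℝ)) :=
    h V w (fun a b c _ _ => ((o2 (ac G a b) (ac G a c) : ℕ) : ℝ)) ![3, 0, 2, 1, 4] bj30214
  have q20 : E5 w (fun a b c d e => ((o2 (ac G d a) (ac G d e) : ℕ) : ℝ)) =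
      E5 w (fun a b c _ _ => ((o2 (ac G a b) (ac G a c) : ℕ) : ℝ)) :=
    h V w (fun a b c _ _ => ((o2 (ac G a b) (ac G a c) : ℕ) : ℝ)) ![3, 0, 4, 1, 2] bj30412
  have q21 : E5 w (fun a b c d e => ((o2 (ac G d b) (ac G d c) : ℕ) : ℝ)) =
      E5 w (fun a b c _ _ => ((o2 (ac G a b) (ac G a c) : ℕ) : ℝ)) :=
    h V w (fun a b c _ _ => ((o2 (ac G a b) (ac G a c) : ℕ) : ℝ)) ![3, 1, 2, 0, 4] bj31204
  have q22 : E5 w (fun a b c d e => ((o2 (ac G d b) (ac G d e) : ℕ) : ℝ)) =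
      E5 w (fun a b c _ _ => ((o2 (ac G a b) (ac G a c) : ℕ) : ℝ)) :=
    h V w (fun a b c _ _ => ((o2 (ac G a b) (ac G a c) : ℕ) : ℝ)) ![3, 1, 4, 0, 2] bj31402
  have q23 : E5 w (fun a b c d e => ((o2 (ac G d c) (ac G d e) : ℕ) : ℝ)) =
      E5 w (fun a b c _ _ => ((o2 (ac G a b) (ac G a c) : ℕ) : ℝ)) :=
    h V w (fun a b c _ _ => ((o2 (ac G a b) (ac G a c) : ℕ) : ℝ)) ![3, 2, 4, 0, 1] bj32401
  have q24 : E5 w (fun a b c d e => ((o2 (ac G e a) (ac G e b) : ℕ) : ℝ)) =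
      E5 w (fun a b c _ _ => ((o2 (ac G a b) (ac G a c) : ℕ) : ℝ)) :=
    h V w (fun a b c _ _ => ((o2 (ac G a b) (ac G a c) : ℕ) : ℝ)) ![4, 0, 1, 2, 3] bj40123
  have q25 : E5 w (fun a b c d e => ((o2 (ac G e a) (ac G e c) : ℕ) : ℝ)) =
      E5 w (fun a b c _ _ => ((o2 (ac G a b) (ac G a c) : ℕ) : ℝ)) :=
    h V w (fun a b c _ _ => ((o2 (ac G a b) (ac G a c) : ℕ) : ℝ)) ![4, 0, 2, 1, 3] bj40213
  have q26 : E5 w (fun a b c d e => ((o2 (ac G e a) (ac G e d) : ℕ) : ℝ)) =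
      E5 w (fun a b c _ _ => ((o2 (ac G a b) (ac G a c) : ℕ) : ℝ)) :=
    h V w (fun a b c _ _ => ((o2 (ac G a b) (ac G a c) : ℕ) : ℝ)) ![4, 0, 3, 1, 2] bj40312
  have q27 : E5 w (fun a b c d e => ((o2 (ac G e b) (ac G e c) : ℕ) : ℝ)) =
      E5 w (fun a b c _ _ => ((o2 (ac G a b) (ac G a c) : ℕ) : ℝ)) :=
    h V w (fun a b c _ _ => ((o2 (ac G a b) (ac G a c) : ℕ) : ℝ)) ![4, 1, 2, 0, 3] bj41203
  have q28 : E5 w (fun a b c d e => ((o2 (ac G e b) (ac G e d) : ℕ) : ℝ)) =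
      E5 w (fun a b c _ _ => ((o2 (ac G a b) (ac G a c) : ℕ) : ℝ)) :=
    h V w (fun a b c _ _ => ((o2 (ac G a b) (ac G a c) : ℕ) : ℝ)) ![4, 1, 3, 0, 2] bj41302
  have q29 : E5 w (fun a b c d e => ((o2 (ac G e c) (ac G e d) : ℕ) : ℝ)) =
      E5 w (fun a b c _ _ => ((o2 (ac G a b) (ac G a c) : ℕ) : ℝ)) :=
    h V w (fun a b c _ _ => ((o2 (ac G a b) (ac G a c) : ℕ) : ℝ)) ![4, 2, 3, 0, 1] bj42301
  simp only [onV, sc, Nat.add_eq, Nat.cast_add, E5_add]
  simp only [q0, q1, q2, q3, q4, q5, q6, q7, q8, q9,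
    q10, q11, q12, q13, q14, q15, q16, q17, q18, q19,
    q20, q21, q22, q23, q24, q25, q26, q27, q28, q29]
  ring

theorem est3 (h : S_PRM) (G : OG V) (w : V → ℝ) (hw : ∑ v, w v = 1) (dl U : ℕ) :
    E5 w (fun a b c d e => ((onV (s3 dl U) G a b c d e : ℕ) : ℝ)) =
    60 * (dl + ∑ a, ∑ b, ∑ c, w a * w b * w c *
      ((1 - nn G a b) * (1 - nn G a c) * (1 - nn G b c) * (U * Dl G w (pu G a b c) - dl))) := by
  rw [← base3 G w hw dl U]
  have q0 : E5 w (fun a b c d e => ((df dl U (ac G a b) (ac G a c) (ac G b c) (ac G a d) (ac G b d) (ac G c d) (ac G a e) (ac G b e) (ac G c e) (ac G d e) : ℕ) : ℝ)) =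
      E5 w (T3 G dl U) := h V w (T3 G dl U) ![0, 1, 2, 3, 4] bj01234
  have q1 : E5 w (fun a b c d e => ((df dl U (ac G a b) (ac G a d) (ac G b d) (ac G a c) (ac G b c) (ac G d c) (ac G a e) (ac G b e) (ac G d e) (ac G c e) : ℕ) : ℝ)) =
      E5 w (T3 G dl U) := h V w (T3 G dl U) ![0, 1, 3, 2, 4] bj01324
  have q2 : E5 w (fun a b c d e => ((df dl U (ac G a b) (ac G a e) (ac G b e) (ac G a c) (ac G b c) (ac G e c) (ac G a d) (ac G b d) (ac G e d) (ac G c d) : ℕ) : ℝ)) =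
      E5 w (T3 G dl U) := h V w (T3 G dl U) ![0, 1, 4, 2, 3] bj01423
  have q3 : E5 w (fun a b c d e => ((df dl U (ac G a c) (ac G a b) (ac G c b) (ac G a d) (ac G c d) (ac G b d) (ac G a e) (ac G c e) (ac G b e) (ac G d e) : ℕ) : ℝ)) =
      E5 w (T3 G dl U) := h V w (T3 G dl U) ![0, 2, 1, 3, 4] bj02134
  have q4 : E5 w (fun a b c d e => ((df dl U (ac G a c) (ac G a d) (ac G c d) (ac G a b) (ac G c b) (ac G d b) (ac G a e) (ac G c e) (ac G d e) (ac G b e) : ℕ) : ℝ)) =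
      E5 w (T3 G dl U) := h V w (T3 G dl U) ![0, 2, 3, 1, 4] bj02314
  have q5 : E5 w (fun a b c d e => ((df dl U (ac G a c) (ac G a e) (ac G c e) (ac G a b) (ac G c b) (ac G e b) (ac G a d) (ac G c d) (ac G e d) (ac G b d) : ℕ) : ℝ)) =
      E5 w (T3 G dl U) := h V w (T3 G dl U) ![0, 2, 4, 1, 3] bj02413
  have q6 : E5 w (fun a b c d e => ((df dl U (ac G a d) (ac G a b) (ac G d b) (ac G a c) (ac G d c) (ac G b c) (ac G a e) (ac G d e) (ac G b e) (ac G c e) : ℕ) : ℝ)) =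
      E5 w (T3 G dl U) := h V w (T3 G dl U) ![0, 3, 1, 2, 4] bj03124
  have q7 : E5 w (fun a b c d e => ((df dl U (ac G a d) (ac G a c) (ac G d c) (ac G a b) (ac G d b) (ac G c b) (ac G a e) (ac G d e) (ac G c e) (ac G b e) : ℕ) : ℝ)) =
      E5 w (T3 G dl U) := h V w (T3 G dl U) ![0, 3, 2, 1, 4] bj03214
  have q8 : E5 w (fun a b c d e => ((df dl U (ac G a d) (ac G a e) (ac G d e) (ac G a b) (ac G d b) (ac G e b) (ac G a c) (ac G d c) (ac G e c) (ac G b c) : ℕ) : ℝ)) =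
      E5 w (T3 G dl U) := h V w (T3 G dl U) ![0, 3, 4, 1, 2] bj03412
  have q9 : E5 w (fun a b c d e => ((df dl U (ac G a e) (ac G a b) (ac G e b) (ac G a c) (ac G e c) (ac G b c) (ac G a d) (ac G e d) (ac G b d) (ac G c d) : ℕ) : ℝ)) =
      E5 w (T3 G dl U) := h V w (T3 G dl U) ![0, 4, 1, 2, 3] bj04123
  have q10 : E5 w (fun a b c d e => ((df dl U (ac G a e) (ac G a c) (ac G e c) (ac G a b) (ac G e b) (ac G c b) (ac G a d) (ac G e d) (ac G c d) (ac G b d) : ℕ) : ℝ)) =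
      E5 w (T3 G dl U) := h V w (T3 G dl U) ![0, 4, 2, 1, 3] bj04213
  have q11 : E5 w (fun a b c d e => ((df dl U (ac G a e) (ac G a d) (ac G e d) (ac G a b) (ac G e b) (ac G d b) (ac G a c) (ac G e c) (ac G d c) (ac G b c) : ℕ) : ℝ)) =
      E5 w (T3 G dl U) := h V w (T3 G dl U) ![0, 4, 3, 1, 2] bj04312
  have q12 : E5 w (fun a b c d e => ((df dl U (ac G b a) (ac G b c) (ac G a c) (ac G b d) (ac G a d) (ac G c d) (ac G b e) (ac G a e) (ac G c e) (ac G d e) : ℕ) : ℝ)) =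
      E5 w (T3 G dl U) := h V w (T3 G dl U) ![1, 0, 2, 3, 4] bj10234
  have q13 : E5 w (fun a b c d e => ((df dl U (ac G b a) (ac G b d) (ac G a d) (ac G b c) (ac G a c) (ac G d c) (ac G b e) (ac G a e) (ac G d e) (ac G c e) : ℕ) : ℝ)) =
      E5 w (T3 G dl U) := h V w (T3 G dl U) ![1, 0, 3, 2, 4] bj10324
  have q14 : E5 w (fun a b c d e => ((df dl U (ac G b a) (ac G b e) (ac G a e) (ac G b c) (ac G a c) (ac G e c) (ac G b d) (ac G a d) (ac G e d) (ac G c d) : ℕ) : ℝ)) =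
      E5 w (T3 G dl U) := h V w (T3 G dl U) ![1, 0, 4, 2, 3] bj10423
  have q15 : E5 w (fun a b c d e => ((df dl U (ac G b c) (ac G b a) (ac G c a) (ac G b d) (ac G c d) (ac G a d) (ac G b e) (ac G c e) (ac G a e) (ac G d e) : ℕ) : ℝ)) =
      E5 w (T3 G dl U) := h V w (T3 G dl U) ![1, 2, 0, 3, 4] bj12034
  have q16 : E5 w (fun a b c d e => ((df dl U (ac G b c) (ac G b d) (ac G c d) (ac G b a) (ac G c a) (ac G d a) (ac G b e) (ac G c e) (ac G d e) (ac G a e) : ℕ) : ℝ)) =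
      E5 w (T3 G dl U) := h V w (T3 G dl U) ![1, 2, 3, 0, 4] bj12304
  have q17 : E5 w (fun a b c d e => ((df dl U (ac G b c) (ac G b e) (ac G c e) (ac G b a) (ac G c a) (ac G e a) (ac G b d) (ac G c d) (ac G e d) (ac G a d) : ℕ) : ℝ)) =
      E5 w (T3 G dl U) := h V w (T3 G dl U) ![1, 2, 4, 0, 3] bj12403
  have q18 : E5 w (fun a b c d e => ((df dl U (ac G b d) (ac G b a) (ac G d a) (ac G b c) (ac G d c) (ac G a c) (ac G b e) (ac G d e) (ac G a e) (ac G c e) : ℕ) : ℝ)) =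
      E5 w (T3 G dl U) := h V w (T3 G dl U) ![1, 3, 0, 2, 4] bj13024
  have q19 : E5 w (fun a b c d e => ((df dl U (ac G b d) (ac G b c) (ac G d c) (ac G b a) (ac G d a) (ac G c a) (ac G b e) (ac G d e) (ac G c e) (ac G a e) : ℕ) : ℝ)) =
      E5 w (T3 G dl U) := h V w (T3 G dl U) ![1, 3, 2, 0, 4] bj13204
  have q20 : E5 w (fun a b c d e => ((df dl U (ac G b d) (ac G b e) (ac G d e) (ac G b a) (ac G d a) (ac G e a) (ac G b c) (ac G d c) (ac G e c) (ac G a c) : ℕ) : ℝ)) =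
      E5 w (T3 G dl U) := h V w (T3 G dl U) ![1, 3, 4, 0, 2] bj13402
  have q21 : E5 w (fun a b c d e => ((df dl U (ac G b e) (ac G b a) (ac G e a) (ac G b c) (ac G e c) (ac G a c) (ac G b d) (ac G e d) (ac G a d) (ac G c d) : ℕ) : ℝ)) =
      E5 w (T3 G dl U) := h V w (T3 G dl U) ![1, 4, 0, 2, 3] bj14023
  have q22 : E5 w (fun a b c d e => ((df dl U (ac G b e) (ac G b c) (ac G e c) (ac G b a) (ac G e a) (ac G c a) (ac G b d) (ac G e d) (ac G c d) (ac G a d) : ℕ) : ℝ)) =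
      E5 w (T3 G dl U) := h V w (T3 G dl U) ![1, 4, 2, 0, 3] bj14203
  have q23 : E5 w (fun a b c d e => ((df dl U (ac G b e) (ac G b d) (ac G e d) (ac G b a) (ac G e a) (ac G d a) (ac G b c) (ac G e c) (ac G d c) (ac G a c) : ℕ) : ℝ)) =
      E5 w (T3 G dl U) := h V w (T3 G dl U) ![1, 4, 3, 0, 2] bj14302
  have q24 : E5 w (fun a b c d e => ((df dl U (ac G c a) (ac G c b) (ac G a b) (ac G c d) (ac G a d) (ac G b d) (ac G c e) (ac G a e) (ac G b e) (ac G d e) : ℕ) : ℝ)) =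
      E5 w (T3 G dl U) := h V w (T3 G dl U) ![2, 0, 1, 3, 4] bj20134
  have q25 : E5 w (fun a b c d e => ((df dl U (ac G c a) (ac G c d) (ac G a d) (ac G c b) (ac G a b) (ac G d b) (ac G c e) (ac G a e) (ac G d e) (ac G b e) : ℕ) : ℝ)) =
      E5 w (T3 G dl U) := h V w (T3 G dl U) ![2, 0, 3, 1, 4] bj20314
  have q26 : E5 w (fun a b c d e => ((df dl U (ac G c a) (ac G c e) (ac G a e) (ac G c b) (ac G a b) (ac G e b) (ac G c d) (ac G a d) (ac G e d) (ac G b d) : ℕ) : ℝ)) =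
      E5 w (T3 G dl U) := h V w (T3 G dl U) ![2, 0, 4, 1, 3] bj20413
  have q27 : E5 w (fun a b c d e => ((df dl U (ac G c b) (ac G c a) (ac G b a) (ac G c d) (ac G b d) (ac G a d) (ac G c e) (ac G b e) (ac G a e) (ac G d e) : ℕ) : ℝ)) =
      E5 w (T3 G dl U) := h V w (T3 G dl U) ![2, 1, 0, 3, 4] bj21034
  have q28 : E5 w (fun a b c d e => ((df dl U (ac G c b) (ac G c d) (ac G b d) (ac G c a) (ac G b a) (ac G d a) (ac G c e) (ac G b e) (ac G d e) (ac G a e) : ℕ) : ℝ)) =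
      E5 w (T3 G dl U) := h V w (T3 G dl U) ![2, 1, 3, 0, 4] bj21304
  have q29 : E5 w (fun a b c d e => ((df dl U (ac G c b) (ac G c e) (ac G b e) (ac G c a) (ac G b a) (ac G e a) (ac G c d) (ac G b d) (ac G e d) (ac G a d) : ℕ) : ℝ)) =
      E5 w (T3 G dl U) := h V w (T3 G dl U) ![2, 1, 4, 0, 3] bj21403
  have q30 : E5 w (fun a b c d e => ((df dl U (ac G c d) (ac G c a) (ac G d a) (ac G c b) (ac G d b) (ac G a b) (ac G c e) (ac G d e) (ac G a e) (ac G b e) : ℕ) : ℝ)) =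
      E5 w (T3 G dl U) := h V w (T3 G dl U) ![2, 3, 0, 1, 4] bj23014
  have q31 : E5 w (fun a b c d e => ((df dl U (ac G c d) (ac G c b) (ac G d b) (ac G c a) (ac G d a) (ac G b a) (ac G c e) (ac G d e) (ac G b e) (ac G a e) : ℕ) : ℝ)) =
      E5 w (T3 G dl U) := h V w (T3 G dl U) ![2, 3, 1, 0, 4] bj23104
  have q32 : E5 w (fun a b c d e => ((df dl U (ac G c d) (ac G c e) (ac G d e) (ac G c a) (ac G d a) (ac G e a) (ac G c b) (ac G d b) (ac G e b) (ac G a b) : ℕ) : ℝ)) =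
      E5 w (T3 G dl U) := h V w (T3 G dl U) ![2, 3, 4, 0, 1] bj23401
  have q33 : E5 w (fun a b c d e => ((df dl U (ac G c e) (ac G c a) (ac G e a) (ac G c b) (ac G e b) (ac G a b) (ac G c d) (ac G e d) (ac G a d) (ac G b d) : ℕ) : ℝ)) =
      E5 w (T3 G dl U) := h V w (T3 G dl U) ![2, 4, 0, 1, 3] bj24013
  have q34 : E5 w (fun a b c d e => ((df dl U (ac G c e) (ac G c b) (ac G e b) (ac G c a) (ac G e a) (ac G b a) (ac G c d) (ac G e d) (ac G b d) (ac G a d) : ℕ) : ℝ)) =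
      E5 w (T3 G dl U) := h V w (T3 G dl U) ![2, 4, 1, 0, 3] bj24103
  have q35 : E5 w (fun a b c d e => ((df dl U (ac G c e) (ac G c d) (ac G e d) (ac G c a) (ac G e a) (ac G d a) (ac G c b) (ac G e b) (ac G d b) (ac G a b) : ℕ) : ℝ)) =
      E5 w (T3 G dl U) := h V w (T3 G dl U) ![2, 4, 3, 0, 1] bj24301
  have q36 : E5 w (fun a b c d e => ((df dl U (ac G d a) (ac G d b) (ac G a b) (ac G d c) (ac G a c) (ac G b c) (ac G d e) (ac G a e) (ac G b e) (ac G c e) : ℕ) : ℝ)) =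
      E5 w (T3 G dl U) := h V w (T3 G dl U) ![3, 0, 1, 2, 4] bj30124
  have q37 : E5 w (fun a b c d e => ((df dl U (ac G d a) (ac G d c) (ac G a c) (ac G d b) (ac G a b) (ac G c b) (ac G d e) (ac G a e) (ac G c e) (ac G b e) : ℕ) : ℝ)) =
      E5 w (T3 G dl U) := h V w (T3 G dl U) ![3, 0, 2, 1, 4] bj30214
  have q38 : E5 w (fun a b c d e => ((df dl U (ac G d a) (ac G d e) (ac G a e) (ac G d b) (ac G a b) (ac G e b) (ac G d c) (ac G a c) (ac G e c) (ac G b c) : ℕ) : ℝ)) =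
      E5 w (T3 G dl U) := h V w (T3 G dl U) ![3, 0, 4, 1, 2] bj30412
  have q39 : E5 w (fun a b c d e => ((df dl U (ac G d b) (ac G d a) (ac G b a) (ac G d c) (ac G b c) (ac G a c) (ac G d e) (ac G b e) (ac G a e) (ac G c e) : ℕ) : ℝ)) =
      E5 w (T3 G dl U) := h V w (T3 G dl U) ![3, 1, 0, 2, 4] bj31024
  have q40 : E5 w (fun a b c d e => ((df dl U (ac G d b) (ac G d c) (ac G b c) (ac G d a) (ac G b a) (ac G c a) (ac G d e) (ac G b e) (ac G c e) (ac G a e) : ℕ) : ℝ)) =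
      E5 w (T3 G dl U) := h V w (T3 G dl U) ![3, 1, 2, 0, 4] bj31204
  have q41 : E5 w (fun a b c d e => ((df dl U (ac G d b) (ac G d e) (ac G b e) (ac G d a) (ac G b a) (ac G e a) (ac G d c) (ac G b c) (ac G e c) (ac G a c) : ℕ) : ℝ)) =
      E5 w (T3 G dl U) := h V w (T3 G dl U) ![3, 1, 4, 0, 2] bj31402
  have q42 : E5 w (fun a b c d e => ((df dl U (ac G d c) (ac G d a) (ac G c a) (ac G d b) (ac G c b) (ac G a b) (ac G d e) (ac G c e) (ac G a e) (ac G b e) : ℕ) : ℝ)) =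
      E5 w (T3 G dl U) := h V w (T3 G dl U) ![3, 2, 0, 1, 4] bj32014
  have q43 : E5 w (fun a b c d e => ((df dl U (ac G d c) (ac G d b) (ac G c b) (ac G d a) (ac G c a) (ac G b a) (ac G d e) (ac G c e) (ac G b e) (ac G a e) : ℕ) : ℝ)) =
      E5 w (T3 G dl U) := h V w (T3 G dl U) ![3, 2, 1, 0, 4] bj32104
  have q44 : E5 w (fun a b c d e => ((df dl U (ac G d c) (ac G d e) (ac G c e) (ac G d a) (ac G c a) (ac G e a) (ac G d b) (ac G c b) (ac G e b) (ac G a b) : ℕ) : ℝ)) =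
      E5 w (T3 G dl U) := h V w (T3 G dl U) ![3, 2, 4, 0, 1] bj32401
  have q45 : E5 w (fun a b c d e => ((df dl U (ac G d e) (ac G d a) (ac G e a) (ac G d b) (ac G e b) (ac G a b) (ac G d c) (ac G e c) (ac G a c) (ac G b c) : ℕ) : ℝ)) =
      E5 w (T3 G dl U) := h V w (T3 G dl U) ![3, 4, 0, 1, 2] bj34012
  have q46 : E5 w (fun a b c d e => ((df dl U (ac G d e) (ac G d b) (ac G e b) (ac G d a) (ac G e a) (ac G b a) (ac G d c) (ac G e c) (ac G b c) (ac G a c) : ℕ) : ℝ)) =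
      E5 w (T3 G dl U) := h V w (T3 G dl U) ![3, 4, 1, 0, 2] bj34102
  have q47 : E5 w (fun a b c d e => ((df dl U (ac G d e) (ac G d c) (ac G e c) (ac G d a) (ac G e a) (ac G c a) (ac G d b) (ac G e b) (ac G c b) (ac G a b) : ℕ) : ℝ)) =
      E5 w (T3 G dl U) := h V w (T3 G dl U) ![3, 4, 2, 0, 1] bj34201
  have q48 : E5 w (fun a b c d e => ((df dl U (ac G e a) (ac G e b) (ac G a b) (ac G e c) (ac G a c) (ac G b c) (ac G e d) (ac G a d) (ac G b d) (ac G c d) : ℕ) : ℝ)) =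
      E5 w (T3 G dl U) := h V w (T3 G dl U) ![4, 0, 1, 2, 3] bj40123
  have q49 : E5 w (fun a b c d e => ((df dl U (ac G e a) (ac G e c) (ac G a c) (ac G e b) (ac G a b) (ac G c b) (ac G e d) (ac G a d) (ac G c d) (ac G b d) : ℕ) : ℝ)) =
      E5 w (T3 G dl U) := h V w (T3 G dl U) ![4, 0, 2, 1, 3] bj40213
  have q50 : E5 w (fun a b c d e => ((df dl U (ac G e a) (ac G e d) (ac G a d) (ac G e b) (ac G a b) (ac G d b) (ac G e c) (ac G a c) (ac G d c) (ac G b c) : ℕ) : ℝ)) =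
      E5 w (T3 G dl U) := h V w (T3 G dl U) ![4, 0, 3, 1, 2] bj40312
  have q51 : E5 w (fun a b c d e => ((df dl U (ac G e b) (ac G e a) (ac G b a) (ac G e c) (ac G b c) (ac G a c) (ac G e d) (ac G b d) (ac G a d) (ac G c d) : ℕ) : ℝ)) =
      E5 w (T3 G dl U) := h V w (T3 G dl U) ![4, 1, 0, 2, 3] bj41023
  have q52 : E5 w (fun a b c d e => ((df dl U (ac G e b) (ac G e c) (ac G b c) (ac G e a) (ac G b a) (ac G c a) (ac G e d) (ac G b d) (ac G c d) (ac G a d) : ℕ) : ℝ)) =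
      E5 w (T3 G dl U) := h V w (T3 G dl U) ![4, 1, 2, 0, 3] bj41203
  have q53 : E5 w (fun a b c d e => ((df dl U (ac G e b) (ac G e d) (ac G b d) (ac G e a) (ac G b a) (ac G d a) (ac G e c) (ac G b c) (ac G d c) (ac G a c) : ℕ) : ℝ)) =
      E5 w (T3 G dl U) := h V w (T3 G dl U) ![4, 1, 3, 0, 2] bj41302
  have q54 : E5 w (fun a b c d e => ((df dl U (ac G e c) (ac G e a) (ac G c a) (ac G e b) (ac G c b) (ac G a b) (ac G e d) (ac G c d) (ac G a d) (ac G b d) : ℕ) : ℝ)) =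
      E5 w (T3 G dl U) := h V w (T3 G dl U) ![4, 2, 0, 1, 3] bj42013
  have q55 : E5 w (fun a b c d e => ((df dl U (ac G e c) (ac G e b) (ac G c b) (ac G e a) (ac G c a) (ac G b a) (ac G e d) (ac G c d) (ac G b d) (ac G a d) : ℕ) : ℝ)) =
      E5 w (T3 G dl U) := h V w (T3 G dl U) ![4, 2, 1, 0, 3] bj42103
  have q56 : E5 w (fun a b c d e => ((df dl U (ac G e c) (ac G e d) (ac G c d) (ac G e a) (ac G c a) (ac G d a) (ac G e b) (ac G c b) (ac G d b) (ac G a b) : ℕ) : ℝ)) =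
      E5 w (T3 G dl U) := h V w (T3 G dl U) ![4, 2, 3, 0, 1] bj42301
  have q57 : E5 w (fun a b c d e => ((df dl U (ac G e d) (ac G e a) (ac G d a) (ac G e b) (ac G d b) (ac G a b) (ac G e c) (ac G d c) (ac G a c) (ac G b c) : ℕ) : ℝ)) =
      E5 w (T3 G dl U) := h V w (T3 G dl U) ![4, 3, 0, 1, 2] bj43012
  have q58 : E5 w (fun a b c d e => ((df dl U (ac G e d) (ac G e b) (ac G d b) (ac G e a) (ac G d a) (ac G b a) (ac G e c) (ac G d c) (ac G b c) (ac G a c) : ℕ) : ℝ)) =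
      E5 w (T3 G dl U) := h V w (T3 G dl U) ![4, 3, 1, 0, 2] bj43102
  have q59 : E5 w (fun a b c d e => ((df dl U (ac G e d) (ac G e c) (ac G d c) (ac G e a) (ac G d a) (ac G c a) (ac G e b) (ac G d b) (ac G c b) (ac G a b) : ℕ) : ℝ)) =
      E5 w (T3 G dl U) := h V w (T3 G dl U) ![4, 3, 2, 0, 1] bj43201
  simp only [onV, s3, Nat.add_eq, Nat.cast_add, E5_add]
  simp only [q0, q1, q2, q3, q4, q5, q6, q7, q8, q9,
    q10, q11, q12, q13, q14, q15, q16, q17, q18, q19,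
    q20, q21, q22, q23, q24, q25, q26, q27, q28, q29,
    q30, q31, q32, q33, q34, q35, q36, q37, q38, q39,
    q40, q41, q42, q43, q44, q45, q46, q47, q48, q49,
    q50, q51, q52, q53, q54, q55, q56, q57, q58, q59]
  ring

theorem est (h : S_PRM) : S_EST := by
  intro V _ G w hw
  exact ⟨est1 h G w hw, est2 h G w hw, fun dl U => est3 h G w hw dl U⟩

end Pool.Agent.W32.FF
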